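import Pool.Agent.helper20.EQR.CRb
import Pool.Agent.helper72.EQR.MaxM

/-!
# Maximum principle in the corner: last near nodes

`last_core`: the closing of the last near node on the closed corner from its frontier, with the
outcome of `step_max` as a hypothesis.
-/

namespace Pool.Agent.helper12.RS

open Complex Set Metric
open Pool.Agent.helper63.NF

noncomputable section

variable {t : Tb} {e κ θ δ Y s1 R : ℝ} {n : ℕ}

/-! ### the last near node -/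

/-- uniqueness of the next state (same as `nx_eq`) -/
private theorem nx_eq' {T x T' : ℂ} (h : StepP t e κ δ Y n T x T') : T' = nx t e κ n x T := by
  unfold nx
  rw [h.S]
  have h1 : ((Real.cosh κ : ℂ) + T') ≠ 0 := by
    intro h0
    have := h.re
    rw [h0] at this
    simp at this
  have h2 : (((Real.cosh κ : ℂ) + T') ^ 2) ^ ((1 / 2 : ℝ) : ℂ) = (Real.cosh κ : ℂ) + T' := by
    have h3 : ((1 / 2 : ℝ) : ℂ) = (2 : ℂ)⁻¹ := by push_cast; ring
    rw [h3]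
    have h4 : (((2 : ℕ) : ℂ))⁻¹ = (2 : ℂ)⁻¹ := by norm_num
    rw [← h4]
    apply Complex.pow_cpow_nat_inv (by norm_num)
    · have := (abs_lt.1 (Complex.abs_arg_lt_pi_div_two_iff.2 (Or.inl h.re))).1
      have e1 : (2 : ℕ) = (2 : ℝ) := by norm_num
      rw [e1]
      linarith
    · have := (abs_lt.1 (Complex.abs_arg_lt_pi_div_two_iff.2 (Or.inl h.re))).2
      have e1 : (2 : ℕ) = (2 : ℝ) := by norm_num
      rw [e1]
      linarith
  rw [h2]
  ring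

private theorem shift_re {c : ℝ} (hc : 1 ≤ c) {Q : ℂ} (h : 1 < Q.re) :
    1 < (2 * (c : ℂ) - Q⁻¹).re := by
  have h1 : 1 < ‖Q‖ := lt_of_lt_of_le h ((le_abs_self _).trans (abs_re_le_norm Q))
  have h2 : (Q⁻¹).re ≤ ‖Q⁻¹‖ := (le_abs_self _).trans (abs_re_le_norm _)
  rw [norm_inv] at h2
  have h3 : ‖Q‖⁻¹ < 1 := inv_lt_one_of_one_lt₀ h1
  have h4 : (2 * (c : ℂ) - Q⁻¹).re = 2 * c - (Q⁻¹).re := by simp
  rw [h4]
  linarith

private theorem slit_re {Q : ℂ} (h : 1 < Q.re) : Q ∈ slitPlane :=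
  mem_slitPlane_iff.2 (Or.inl (by linarith))

private theorem ne_re {Q : ℂ} (h : 1 < Q.re) : Q ≠ 0 := slitPlane_ne_zero (slit_re h)

private theorem cpow_lt (he : 0 < e) {Q : ℂ} (h : 1 < Q.re) : ‖Q ^ (-(e : ℂ))‖ < 1 := by
  have h1 : 1 < ‖Q‖ := lt_of_lt_of_le h ((le_abs_self _).trans (abs_re_le_norm Q))
  have h2 : (-(e : ℂ)) = ((-e : ℝ) : ℂ) := by push_cast; rfl
  rw [h2, norm_cpow_real]
  exact Real.rpow_lt_one_of_one_lt_of_neg h1 (by linarith)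

private theorem one_add_ne {q : ℂ} (h : ‖q‖ < 1) : 1 + q ≠ 0 := by
  intro h0
  have h1 : q = -1 := by linear_combination h0
  rw [h1, norm_neg, norm_one] at h
  exact lt_irrefl _ h

/-- a vector in a disc is a multiple of the bound -/
private theorem exists_mul {z b : ℂ} {c : ℝ} (hc : 0 ≤ c) (h : ‖z‖ ≤ c * ‖b‖) :
    ∃ w : ℂ, ‖w‖ ≤ 1 ∧ z = w * ((c : ℂ) * b) := by
  by_cases h0 : c * ‖b‖ = 0
  · refine ⟨0, by simp, ?_⟩
    rw [h0] at h
    rw [norm_le_zero_iff.1 h, zero_mul]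
  · have h1 : 0 < c * ‖b‖ := lt_of_le_of_ne (by positivity) (Ne.symm h0)
    have h2 : ‖(c : ℂ) * b‖ = c * ‖b‖ := by
      rw [norm_mul, Complex.norm_real, Real.norm_of_nonneg hc]
    have h3 : (c : ℂ) * b ≠ 0 := by
      rw [← norm_pos_iff, h2]; exact h1
    refine ⟨z / ((c : ℂ) * b), ?_, ?_⟩
    · rw [norm_div, h2, div_le_one h1]
      exact h
    · rw [div_mul_cancel₀ _ h3]

/-- ratio after one shift -/
def Q1x (κ : ℝ) (T : ℂ) : ℂ := 2 * (Real.cosh κ : ℂ) - ((Real.cosh κ : ℂ) + T)⁻¹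

/-- ratio after two shifts -/
def Q2x (κ : ℝ) (T : ℂ) : ℂ := 2 * (Real.cosh κ : ℂ) - (Q1x κ T)⁻¹

def q3x (e κ : ℝ) (T : ℂ) : ℂ := Q2x κ T ^ (-(e : ℂ))

/-- value two steps ahead with the error vector `w` -/
def f2x (e κ D : ℝ) (w T : ℂ) : ℂ := 1 / (1 + q3x e κ T) +
  w * ((D : ℂ) * (((Q2x κ T - (Real.cosh κ : ℂ)) ^ 2 - (Real.sinh κ : ℂ) ^ 2) * q3x e κ T /
    (1 + q3x e κ T) ^ 3))

def chx (κ C : ℝ) (w T : ℂ) : ℂ :=
  w * ((C : ℂ) * (((Real.cosh κ : ℂ) + T - (Real.exp (-κ) : ℂ)) / ((Real.cosh κ : ℂ) + T)))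

/-- the last closing as a function of the state, next state `T'` -/
def gx (t : Tb) (e κ : ℝ) (n : ℕ) (x T T' f2 χ : ℂ) : ℂ :=
  x - t.MT e κ n T * (x - (1 - exp (CL (t.lT e κ T) - (e : ℂ) * log ((Real.cosh κ : ℂ) + T')) *
    (1 - Q1x κ T' ^ (-(e : ℂ)) * f2 * (1 - χ))) / t.rT e κ n T)

private theorem Q1x_re {T : ℂ} (h : 1 < ((Real.cosh κ : ℂ) + T).re) : 1 < (Q1x κ T).re :=
  shift_re (Real.one_le_cosh κ) h

private theorem Q2x_re {T : ℂ} (h : 1 < ((Real.cosh κ : ℂ) + T).re) : 1 < (Q2x κ T).re :=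
  shift_re (Real.one_le_cosh κ) (Q1x_re h)

private theorem q3x_ne (he : 0 < e) {T : ℂ} (h : 1 < ((Real.cosh κ : ℂ) + T).re) :
    1 + q3x e κ T ≠ 0 := one_add_ne (cpow_lt he (Q2x_re h))

private theorem cT_diff (T : ℂ) : DifferentiableAt ℂ (fun T : ℂ => (Real.cosh κ : ℂ) + T) T :=
  differentiableAt_id.const_add _

private theorem Q1x_diff {T : ℂ} (h : 1 < ((Real.cosh κ : ℂ) + T).re) :
    DifferentiableAt ℂ (Q1x κ) T := by
  unfold Q1x
  exact ((cT_diff T).inv (ne_re h)).const_sub _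

private theorem Q2x_diff {T : ℂ} (h : 1 < ((Real.cosh κ : ℂ) + T).re) :
    DifferentiableAt ℂ (Q2x κ) T := by
  unfold Q2x
  exact ((Q1x_diff h).inv (ne_re (Q1x_re h))).const_sub _

private theorem q3x_diff {T : ℂ} (h : 1 < ((Real.cosh κ : ℂ) + T).re) :
    DifferentiableAt ℂ (q3x e κ) T := by
  unfold q3x
  exact (Q2x_diff h).cpow (differentiableAt_const _) (slit_re (Q2x_re h))

private theorem q2x_diff {T : ℂ} (h : 1 < ((Real.cosh κ : ℂ) + T).re) :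
    DifferentiableAt ℂ (fun T => Q1x κ T ^ (-(e : ℂ))) T :=
  (Q1x_diff h).cpow (differentiableAt_const _) (slit_re (Q1x_re h))

private theorem f2x_diff (he : 0 < e) (D : ℝ) (w : ℂ) {T : ℂ}
    (h : 1 < ((Real.cosh κ : ℂ) + T).re) : DifferentiableAt ℂ (f2x e κ D w) T := by
  unfold f2x
  have h1 : DifferentiableAt ℂ (fun T => 1 + q3x e κ T) T := (q3x_diff h).const_add _
  have h2 := q3x_ne he h
  have h3 : DifferentiableAt ℂ (fun T => ((Q2x κ T - (Real.cosh κ : ℂ)) ^ 2 -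
      (Real.sinh κ : ℂ) ^ 2) * q3x e κ T / (1 + q3x e κ T) ^ 3) T :=
    (((((Q2x_diff h).sub_const _).pow 2).sub_const _).mul (q3x_diff h)).div (h1.pow 3)
      (pow_ne_zero 3 h2)
  exact ((differentiableAt_const _).div h1 h2).add ((h3.const_mul _).const_mul _)

private theorem chx_diff (C : ℝ) (w : ℂ) {T : ℂ} (h : 1 < ((Real.cosh κ : ℂ) + T).re) :
    DifferentiableAt ℂ (chx κ C w) T := by
  unfold chx
  exact ((((cT_diff T).sub_const _).div (cT_diff T) (ne_re h)).const_mul _).const_mul _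

/-- **Last near nodes**, with the outcome of `step_max` as a hypothesis. -/
theorem last_core (he : 0 < e) (hκ : 0 < κ) (hθ : θ ≤ 1) {A x0 B1 : ℝ} (hA : 0 ≤ A)
    (hx0 : 0 ≤ x0) (hB1 : B1 < x0 + 2)
    (hs : ∀ T ∈ closure (CR e κ s1 R),
      0 < ((Real.cosh κ : ℂ) + T).re ∧ ((1 / e : ℝ) : ℂ) + t.c n * T ≠ 0 ∧
      podom t.pol (t.de e) (Tb.yT e κ T) ∧ t.rT e κ n T ≠ 0 ∧
      0 < (1 + exp (-(t.lT e κ T))).re ∧
      DifferentiableAt ℂ (t.lT e κ) T ∧ DifferentiableAt ℂ (t.rT e κ n) T ∧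
      DifferentiableAt ℂ (t.MT e κ n) T ∧
      ∀ x : ℂ, ‖x‖ ≤ 1 → StepP t e κ δ Y n T x (nx t e κ n x T) ∧
        DifferentiableAt ℂ (nx t e κ n x) T ∧ e * ‖nx t e κ n x T‖ ≤ 1 / 2 ∧
        0 < (nx t e κ n x T).re)
    (fr : ∀ T ∈ frontier (CR e κ s1 R), LastP t e κ θ δ Y A x0 B1 n T) :
    ∀ T ∈ closure (CR e κ s1 R), LastP t e κ θ δ Y A x0 B1 n T := by
  obtain ⟨U, hU⟩ : ∃ U, U = CR e κ s1 R := ⟨_, rfl⟩
  have hUb : Bornology.IsBounded U := by rw [hU]; exact isBounded_CR e κ s1 R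
  rw [← hU] at hs fr ⊢
  obtain ⟨D0, hD0⟩ : ∃ D0 : ℝ, D0 = (1 + 1 / (2 * (x0 + 2))) / (1 - B1 / (x0 + 2)) := ⟨_, rfl⟩
  have hD0n : 0 ≤ D0 := by
    have h1 : B1 / (x0 + 2) < 1 := by rw [div_lt_one (by linarith)]; exact hB1
    have h2 : 0 < 1 - B1 / (x0 + 2) := by linarith
    rw [hD0]
    positivity
  obtain ⟨D, hD⟩ : ∃ D : ℝ, D = D0 * e := ⟨_, rfl⟩
  have hDn : 0 ≤ D := by rw [hD]; exact mul_nonneg hD0n he.le
  obtain ⟨C, hC⟩ : ∃ C : ℝ, C = A * Real.sinh κ * Real.exp (-(κ * x0)) /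
    Real.sinh (κ * (x0 + 1)) := ⟨_, rfl⟩
  have hCn : 0 ≤ C := by
    have h1 : 0 < Real.sinh κ := Real.sinh_pos_iff.2 hκ
    have h2 : 0 < Real.sinh (κ * (x0 + 1)) := Real.sinh_pos_iff.2 (by positivity)
    rw [hC]
    positivity
  -- the ratio of the next node
  have ch : ∀ x : ℂ, ‖x‖ ≤ 1 → ∀ T ∈ closure U,
      1 < ((Real.cosh κ : ℂ) + nx t e κ n x T).re := by
    intro x hx T hT
    have h1 := ((hs T hT).2.2.2.2.2.2.2.2 x hx).2.2.2
    have h2 := Real.one_le_cosh κ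
    rw [add_re, ofReal_re]
    linarith
  have nd : ∀ x : ℂ, ‖x‖ ≤ 1 → ∀ T ∈ closure U, DifferentiableAt ℂ (nx t e κ n x) T :=
    fun x hx T hT => ((hs T hT).2.2.2.2.2.2.2.2 x hx).2.1
  -- the facts of the frontier in terms of `nx`
  have fr' : ∀ T ∈ frontier U, ∀ x : ℂ, ‖x‖ ≤ 1 →
      ‖q3x e κ (nx t e κ n x T)‖ ≤ B1 * ‖1 + q3x e κ (nx t e κ n x T)‖ ∧
      ∀ f2 χ : ℂ, ‖f2 - 1 / (1 + q3x e κ (nx t e κ n x T))‖ ≤
        D0 * (e * ‖(Q2x κ (nx t e κ n x T) - (Real.cosh κ : ℂ)) ^ 2 - (Real.sinh κ : ℂ) ^ 2‖) *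
          ‖q3x e κ (nx t e κ n x T)‖ / ‖1 + q3x e κ (nx t e κ n x T)‖ ^ 3 →
        ‖χ‖ ≤ C * ‖((Real.cosh κ : ℂ) + nx t e κ n x T - (Real.exp (-κ) : ℂ)) /
          ((Real.cosh κ : ℂ) + nx t e κ n x T)‖ →
        ‖gx t e κ n x T (nx t e κ n x T) f2 χ‖ < θ := by
    intro T hT x hx
    obtain ⟨T', hst, hcl⟩ := (fr T hT).st x hx
    have hT' := nx_eq' hst
    rw [← hT']
    obtain ⟨k1, -, k3⟩ := hcl _ _ _ _ _ rfl rfl rfl rfl rfl
    refine ⟨k1, ?_⟩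
    intro f2 χ hf hχ
    have := k3 f2 χ (by rw [← hD0]; exact hf) (by rw [← hC]; exact hχ)
    exact this
  -- the bound of `q3/(1+q3)`
  have hB : ∀ x : ℂ, ‖x‖ ≤ 1 → ∀ T ∈ closure U,
      ‖q3x e κ (nx t e κ n x T)‖ ≤ B1 * ‖1 + q3x e κ (nx t e κ n x T)‖ := by
    intro x hx T hT
    have hd : DiffContOnCl ℂ (fun T => q3x e κ (nx t e κ n x T) /
        (1 + q3x e κ (nx t e κ n x T))) U := by
      apply DifferentiableOn.diffContOnCl
      intro z hz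
      have h1 : DifferentiableAt ℂ (fun T => q3x e κ (nx t e κ n x T)) z :=
        (q3x_diff (ch x hx z hz)).comp z (nd x hx z hz)
      exact (h1.div (h1.const_add _) (q3x_ne he (ch x hx z hz))).differentiableWithinAt
    have h2 : ∀ z ∈ frontier U, ‖q3x e κ (nx t e κ n x z) /
        (1 + q3x e κ (nx t e κ n x z))‖ ≤ B1 := by
      intro z hz
      have h3 : 0 < ‖1 + q3x e κ (nx t e κ n x z)‖ :=
        norm_pos_iff.2 (q3x_ne he (ch x hx z (frontier_subset_closure hz)))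
      rw [norm_div, div_le_iff₀ h3]
      exact (fr' z hz x hx).1
    have h4 := Complex.norm_le_of_forall_mem_frontier_norm_le hUb hd h2 hT
    have h3 : 0 < ‖1 + q3x e κ (nx t e κ n x T)‖ := norm_pos_iff.2 (q3x_ne he (ch x hx T hT))
    rwa [norm_div, div_le_iff₀ h3] at h4
  -- the closing for fixed vectors
  have hG : ∀ x w1 w2 : ℂ, ‖x‖ ≤ 1 → ‖w1‖ ≤ 1 → ‖w2‖ ≤ 1 → ∀ T ∈ closure U,
      ‖gx t e κ n x T (nx t e κ n x T) (f2x e κ D w1 (nx t e κ n x T))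
        (chx κ C w2 (nx t e κ n x T))‖ < θ := by
    intro x w1 w2 hx hw1 hw2 T hT
    have hne : U.Nonempty := closure_nonempty_iff.1 ⟨T, hT⟩
    have hd : DiffContOnCl ℂ (fun T => gx t e κ n x T (nx t e κ n x T)
        (f2x e κ D w1 (nx t e κ n x T)) (chx κ C w2 (nx t e κ n x T))) U := by
      apply DifferentiableOn.diffContOnCl
      intro z hz
      obtain ⟨-, -, -, a4, a5, a6, a7, a8, -⟩ := hs z hz
      have b1 := nd x hx z hz
      have b2 := ch x hx z hz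
      have c1 : DifferentiableAt ℂ (fun T => (Real.cosh κ : ℂ) + nx t e κ n x T) z :=
        b1.const_add _
      have c2 : DifferentiableAt ℂ (fun T => log ((Real.cosh κ : ℂ) + nx t e κ n x T)) z :=
        c1.clog (slit_re b2)
      have c3 : DifferentiableAt ℂ (fun T => CL (t.lT e κ T)) z := by
        unfold CL lc
        have : DifferentiableAt ℂ (fun T => 1 + exp (-(t.lT e κ T))) z :=
          (a6.neg.cexp).const_add _
        exact a6.add (this.clog (mem_slitPlane_iff.2 (Or.inl a5)))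
      have c4 : DifferentiableAt ℂ (fun T => f2x e κ D w1 (nx t e κ n x T)) z :=
        (f2x_diff he D w1 b2).comp z b1
      have c5 : DifferentiableAt ℂ (fun T => chx κ C w2 (nx t e κ n x T)) z :=
        (chx_diff C w2 b2).comp z b1
      have c6 : DifferentiableAt ℂ (fun T => Q1x κ (nx t e κ n x T) ^ (-(e : ℂ))) z :=
        (q2x_diff b2).comp z b1
      have c7 : DifferentiableAt ℂ (fun T => exp (CL (t.lT e κ T) -
          (e : ℂ) * log ((Real.cosh κ : ℂ) + nx t e κ n x T))) z :=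
        (c3.sub (c2.const_mul _)).cexp
      have c8 := (c6.mul c4).mul (c5.const_sub 1)
      have c9 := (c7.mul (c8.const_sub 1)).const_sub 1
      have c10 := (a8.mul ((c9.div a7 a4).const_sub x)).const_sub x
      exact c10.differentiableWithinAt
    refine Pool.Agent.helper63.RG.lt_of_frontier hUb hne hd ?_ T hT
    intro z hz
    have hz' := frontier_subset_closure hz
    obtain ⟨-, k2⟩ := fr' z hz x hx
    apply k2
    · unfold f2x
      rw [add_sub_cancel_left, norm_mul, norm_mul, norm_div, norm_mul, norm_pow,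
        Complex.norm_real, Real.norm_of_nonneg hDn, hD]
      have h3 : 0 ≤ D0 * e * (‖(Q2x κ (nx t e κ n x z) - (Real.cosh κ : ℂ)) ^ 2 -
          (Real.sinh κ : ℂ) ^ 2‖ * ‖q3x e κ (nx t e κ n x z)‖ /
          ‖1 + q3x e κ (nx t e κ n x z)‖ ^ 3) := by
        rw [hD] at hDn
        positivity
      calc ‖w1‖ * (D0 * e * (‖(Q2x κ (nx t e κ n x z) - (Real.cosh κ : ℂ)) ^ 2 -
          (Real.sinh κ : ℂ) ^ 2‖ * ‖q3x e κ (nx t e κ n x z)‖ /
          ‖1 + q3x e κ (nx t e κ n x z)‖ ^ 3)) ≤ 1 * (D0 * e * (‖(Q2x κ (nx t e κ n x z) -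
          (Real.cosh κ : ℂ)) ^ 2 - (Real.sinh κ : ℂ) ^ 2‖ * ‖q3x e κ (nx t e κ n x z)‖ /
          ‖1 + q3x e κ (nx t e κ n x z)‖ ^ 3)) := mul_le_mul_of_nonneg_right hw1 h3
        _ = _ := by ring
    · unfold chx
      rw [norm_mul, norm_mul, Complex.norm_real, Real.norm_of_nonneg hCn]
      have h3 : 0 ≤ C * ‖((Real.cosh κ : ℂ) + nx t e κ n x z - (Real.exp (-κ) : ℂ)) /
          ((Real.cosh κ : ℂ) + nx t e κ n x z)‖ := by positivity
      calc _ ≤ 1 * (C * ‖((Real.cosh κ : ℂ) + nx t e κ n x z - (Real.exp (-κ) : ℂ)) /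
          ((Real.cosh κ : ℂ) + nx t e κ n x z)‖) := mul_le_mul_of_nonneg_right hw2 h3
        _ = _ := one_mul _
  -- the point
  intro T hT
  obtain ⟨a1, a2, a3, a4, a5, -, -, -, a9⟩ := hs T hT
  refine ⟨⟨a1, a2, a3, a4, ?_, a5⟩, ?_⟩
  · intro hM
    have h1 := hG 1 0 0 (by simp) (by simp) (by simp) T hT
    unfold gx at h1
    rw [hM, zero_mul, sub_zero, norm_one] at h1
    linarith
  · intro x hx
    refine ⟨nx t e κ n x T, (a9 x hx).1, ?_⟩
    intro Q' Q1 Q2 q2 q3 hQ' hQ1 hQ2 hq2 hq3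
    have e1 : Q1 = Q1x κ (nx t e κ n x T) := by rw [hQ1, hQ']; rfl
    have e2 : Q2 = Q2x κ (nx t e κ n x T) := by rw [hQ2, e1]; rfl
    have e3 : q3 = q3x e κ (nx t e κ n x T) := by rw [hq3, e2]; rfl
    have hre := ch x hx T hT
    rw [e3, e2, hq2, e1, hQ', ← hD0, ← hC]
    refine ⟨hB x hx T hT, q3x_ne he hre, ?_⟩
    intro f2 χ hf hχ
    have h3 : 0 < ‖1 + q3x e κ (nx t e κ n x T)‖ := norm_pos_iff.2 (q3x_ne he hre)
    obtain ⟨w1, hw1, hf1⟩ := exists_mul (z := f2 - 1 / (1 + q3x e κ (nx t e κ n x T)))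
      (b := ((Q2x κ (nx t e κ n x T) - (Real.cosh κ : ℂ)) ^ 2 - (Real.sinh κ : ℂ) ^ 2) *
        q3x e κ (nx t e κ n x T) / (1 + q3x e κ (nx t e κ n x T)) ^ 3) hDn (by
          refine hf.trans (le_of_eq ?_)
          rw [norm_div, norm_mul, norm_pow (1 + q3x e κ (nx t e κ n x T)), hD]
          ring)
    obtain ⟨w2, hw2, hχ1⟩ := exists_mul hCn hχ
    have hG1 := hG x w1 w2 hx hw1 hw2 T hT
    have e4 : f2x e κ D w1 (nx t e κ n x T) = f2 := by
      unfold f2x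
      rw [← hf1]
      ring
    have e5 : chx κ C w2 (nx t e κ n x T) = χ := by
      unfold chx
      rw [← hχ1]
    rw [e4, e5] at hG1
    exact hG1

/-- **Last near nodes.** -/
theorem lastP_max (H : CH t e κ δ s1 R) (hθ : θ ≤ 1) {A x0 B1 : ℝ} (hA : 0 ≤ A) (hx0 : 0 ≤ x0)
    (_hB0 : 0 ≤ B1) (hB1 : B1 < x0 + 2)
    (fr : ∀ T ∈ frontier (CR e κ s1 R), LastP t e κ θ δ Y A x0 B1 n T) :
    ∀ T ∈ closure (CR e κ s1 R), LastP t e κ θ δ Y A x0 B1 n T :=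
  last_core (by linarith [H.he]) H.hκ hθ hA hx0 hB1
    (step_max H fun T hT => ⟨(fr T hT).nd, fun x hx => by
      obtain ⟨T', h1, -⟩ := (fr T hT).st x hx
      exact ⟨T', h1⟩⟩) fr

end

end Pool.Agent.helper12.RS
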