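import Pool.Agent.helper12.RS.NodeW
import Pool.Agent.helper12.RS.Ser

/-!
# Discarding boxes outside the state disc

`oX` is `(1 - ρ)/κ` and `oE` the numerator of `|K + U|² (1 - ρ²) - 4 K Re U`, divided by `B`, with
`ρ = exp (-2 κ N) (1 + S sinh κ)`: on a box where the real part of `oE` is positive the premise
`‖K - U‖ ≤ ρ ‖K + U‖` fails.
-/

namespace Pool.Agent.helper20.EQR

open Complex ComplexConjugate Set Filter Topology
open Pool.Agent.helper12.RS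

noncomputable section

def oH (b : PtB) (N : ℂ) : ℂ := (N * ((2 : ℂ) * b.z))

def oP (b : PtB) (N : ℂ) : ℂ := ((oH b N) * (E1F (-(oH b N))))

def oX (b : PtB) (N S : ℂ) : ℂ :=
  ((N * ((E1F (-(oH b N))) * ((2 : ℂ) - (oP b N)))) -
    ((b.kh * S) * (((1 : ℂ) - (oP b N)) * ((1 : ℂ) - (oP b N)))))

def oE (b : PtB) (N S U Uc : ℂ) : ℂ :=
  ((((b.K + U) * (b.K + Uc)) *
      (((2 : ℂ) * b.se) * ((oX b N S) * ((2 : ℂ) - (((2 : ℂ) * b.z) * (oX b N S)))))) -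
    ((4 : ℂ) * (b.kh * (U + Uc))))

def uAc (x3 : ℂ) : ℂ := (Complex.exp (-((1 * Complex.I : ℂ) * (x3 - ((101 / 64) : ℂ)))))

def uBc (x2 x3 : ℂ) : ℂ :=
  (((2 : ℂ) * x2) * (Complex.exp (-((1 * Complex.I : ℂ) * (x3 - ((101 / 64) : ℂ))))))

end

variable {e κ s B : ℝ} {b : PtB} {N S U Uc : ℂ} {nr sr : ℝ}

theorem two_z (hb : BR e κ s B b) : (2 : ℂ) * b.z = (κ : ℂ) := by
  rw [hb.z_eq]
  push_cast
  ring

theorem one_sub_oP (hb : BR e κ s B b) (hN : N = (nr : ℂ)) :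
    (1 : ℂ) - oP b N = ((Real.exp (-(κ * nr)) : ℝ) : ℂ) := by
  have h1 := mul_E1F (-(oH b N))
  have h2 : oP b N = 1 - exp (-(oH b N)) := by
    unfold oP
    linear_combination -h1
  rw [h2, ofReal_exp]
  have h3 : oH b N = ((κ * nr : ℝ) : ℂ) := by
    unfold oH
    rw [two_z hb, hN]
    push_cast
    ring
  rw [h3, sub_sub_cancel]
  push_cast
  rfl

/-- (1) `κ oX = 1 - ρ` -/
theorem oX_eq (hb : BR e κ s B b) (hN : N = (nr : ℂ)) (hS : S = (sr : ℂ)) :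
    (κ : ℂ) * oX b N S =
      ((1 - Real.exp (-(2 * κ * nr)) * (1 + Real.sinh κ * sr) : ℝ) : ℂ) := by
  have h1 := one_sub_oP hb hN
  have h2 : (κ : ℂ) * N * E1F (-(oH b N)) = oP b N := by
    unfold oP
    have : oH b N = (κ : ℂ) * N := by
      unfold oH
      rw [two_z hb]
      ring
    rw [this]
  have h3 := hb.kh_eq
  obtain ⟨E, hE⟩ : ∃ E : ℝ, E = Real.exp (-(κ * nr)) := ⟨_, rfl⟩
  have hE2 : Real.exp (-(2 * κ * nr)) = E ^ 2 := by
    rw [hE, ← Real.exp_nat_mul]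
    congr 1
    push_cast
    ring
  rw [← hE] at h1
  rw [hE2]
  have h4 : oP b N = 1 - (E : ℂ) := by linear_combination -h1
  have h5 : (κ : ℂ) * oX b N S = ((κ : ℂ) * N * E1F (-(oH b N))) * (2 - oP b N) -
      ((κ : ℂ) * b.kh) * S * ((1 - oP b N) * (1 - oP b N)) := by
    unfold oX
    ring
  rw [h5, h2, h3, h4, hS]
  push_cast
  ring

/-- (2) the box is outside the disc -/
theorem out_false (he : 0 < e) (hb : BR e κ s B b) (hN : N = (nr : ℂ)) (hS : S = (sr : ℂ))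
    (hUc : Uc = conj U) {ρ : ℝ} (_hρ0 : 0 ≤ ρ)
    (hρ : ρ ≤ Real.exp (-(2 * κ * nr)) * (1 + Real.sinh κ * sr))
    (hp : ‖b.K - U‖ ≤ ρ * ‖b.K + U‖) (hpos : 0 < (oE b N S U Uc).re) : False := by
  have hκ := hb.kap_pos he
  have hX := oX_eq hb hN hS
  obtain ⟨r, hr⟩ : ∃ r : ℝ, r = Real.exp (-(2 * κ * nr)) * (1 + Real.sinh κ * sr) := ⟨_, rfl⟩
  rw [← hr] at hX hρ
  have hz := two_z hb
  have hse := hb.se_eq
  have hse0 := hb.se_pos he
  -- `K` and `kh` are real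
  have hkh : b.kh = ((Real.sinh κ / κ : ℝ) : ℂ) := by
    have h1 := hb.kh_eq
    have h2 : (κ : ℂ) ≠ 0 := by exact_mod_cast hκ.ne'
    rw [ofReal_div, ← h1]
    field_simp
  obtain ⟨k, hk⟩ : ∃ k : ℝ, k = Real.sinh κ / κ := ⟨_, rfl⟩
  rw [← hk] at hkh
  have hK : b.K = ((2 * (B * k) : ℝ) : ℂ) := by
    unfold PtB.K
    rw [hb.hB, hkh]
    push_cast
    ring
  -- the identity `B oE = P (1 - r²) - 4 K Re U`
  have hBz : (B : ℂ) * ((2 : ℂ) * b.se) = (κ : ℂ) := by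
    rw [← hz, hb.z_rel, hb.hB]
    ring
  have h1 : (B : ℂ) * oE b N S U Uc = ((b.K + U) * (b.K + Uc)) * (((κ : ℂ) * oX b N S) *
      (2 - (κ : ℂ) * oX b N S)) - 2 * (b.K * (U + Uc)) := by
    have h2 : (B : ℂ) * oE b N S U Uc = ((b.K + U) * (b.K + Uc)) *
        (((B : ℂ) * ((2 : ℂ) * b.se)) * oX b N S * (2 - ((2 : ℂ) * b.z) * oX b N S)) -
        4 * ((B : ℂ) * b.kh * (U + Uc)) := by
      unfold oE
      ring
    rw [h2, hBz, hz]
    have h3 : b.K = 2 * ((B : ℂ) * b.kh) := by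
      unfold PtB.K
      rw [hb.hB]
    linear_combination (2 * (U + Uc)) * h3
  rw [hX] at h1
  -- real forms
  obtain ⟨K, hKd⟩ : ∃ K : ℝ, K = 2 * (B * k) := ⟨_, rfl⟩
  rw [← hKd] at hK
  have hP : (b.K + U) * (b.K + Uc) = (((K + U.re) ^ 2 + U.im ^ 2 : ℝ) : ℂ) := by
    rw [hK, hUc]
    apply Complex.ext
    · rw [Complex.ofReal_re, Complex.mul_re]
      simp
      ring
    · rw [Complex.ofReal_im, Complex.mul_im]
      simp
      ring
  have hS2 : U + Uc = ((2 * U.re : ℝ) : ℂ) := by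
    rw [hUc, Complex.add_conj]
  rw [hP, hS2, hK] at h1
  have h4 := congrArg Complex.re h1
  have h5 : ((((K + U.re) ^ 2 + U.im ^ 2 : ℝ) : ℂ) * (((1 - r : ℝ) : ℂ) * (2 - ((1 - r : ℝ) : ℂ))) -
      2 * ((K : ℂ) * ((2 * U.re : ℝ) : ℂ))) =
      ((((K + U.re) ^ 2 + U.im ^ 2) * ((1 - r) * (2 - (1 - r))) - 2 * (K * (2 * U.re)) : ℝ) : ℂ) := by
    push_cast
    ring
  rw [h5, ofReal_re, Complex.re_ofReal_mul] at h4
  -- the premise, squared
  have hn1 : ‖b.K - U‖ ^ 2 = (K - U.re) ^ 2 + U.im ^ 2 := by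
    rw [hK, ← Complex.normSq_eq_norm_sq, Complex.normSq_apply]
    simp
    ring
  have hn2 : ‖b.K + U‖ ^ 2 = (K + U.re) ^ 2 + U.im ^ 2 := by
    rw [hK, ← Complex.normSq_eq_norm_sq, Complex.normSq_apply]
    simp
    ring
  have hsq : ‖b.K - U‖ ^ 2 ≤ r ^ 2 * ‖b.K + U‖ ^ 2 := by
    rw [← mul_pow]
    refine pow_le_pow_left₀ (norm_nonneg _) (hp.trans ?_) 2
    exact mul_le_mul_of_nonneg_right hρ (norm_nonneg _)
  rw [hn1, hn2] at hsq
  have hBpos := mul_pos hb.B0 hpos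
  nlinarith

/-- (3) the conjugate of the chart A point -/
theorem uAc_eq (ψ : ℝ) : uAc (ψ : ℂ) = conj (uA (ψ : ℂ)) := by
  unfold uAc uA
  rw [← Complex.exp_conj]
  congr 1
  simp only [map_mul, map_sub, map_one, map_div₀, Complex.conj_I, Complex.conj_ofReal, map_ofNat]
  ring

/-- (3) the conjugate of the chart B point -/
theorem uBc_eq (m ψ : ℝ) : uBc (m : ℂ) (ψ : ℂ) = conj (uB (m : ℂ) (ψ : ℂ)) := by
  unfold uBc uB
  rw [map_mul, map_mul, ← Complex.exp_conj, Complex.conj_ofReal, map_ofNat]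
  congr 2
  simp only [map_mul, map_sub, map_one, map_div₀, Complex.conj_I, Complex.conj_ofReal, map_ofNat]
  ring

end Pool.Agent.helper20.EQR
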