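import Pool.Agent.helper12.RS.CMD

/-!
# The corner: topology and frontier
-/

namespace Pool.Agent.helper12.RS

open Complex Set Metric
open Pool.Agent.helper63.NF

noncomputable section

variable {e κ s1 R : ℝ}

theorem isOpen_CR (e κ s1 R : ℝ) : IsOpen (CR e κ s1 R) := by
  unfold CR
  apply IsOpen.inter
  · exact isOpen_lt continuous_norm continuous_const
  · exact isOpen_lt (continuous_const.sub continuous_id).norm
      (continuous_const.mul (continuous_const.add continuous_id).norm)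

theorem closure_CR {T : ℂ} (h : T ∈ closure (CR e κ s1 R)) :
    ‖T‖ ≤ s1 / e ∧ ‖(Real.sinh κ : ℂ) - T‖ ≤ R * ‖(Real.sinh κ : ℂ) + T‖ := by
  have hc : IsClosed {T : ℂ | ‖T‖ ≤ s1 / e ∧
      ‖(Real.sinh κ : ℂ) - T‖ ≤ R * ‖(Real.sinh κ : ℂ) + T‖} := by
    apply IsClosed.inter
    · exact isClosed_le continuous_norm continuous_const
    · exact isClosed_le (continuous_const.sub continuous_id).norm
        (continuous_const.mul (continuous_const.add continuous_id).norm)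
  have hs : CR e κ s1 R ⊆ {T : ℂ | ‖T‖ ≤ s1 / e ∧
      ‖(Real.sinh κ : ℂ) - T‖ ≤ R * ‖(Real.sinh κ : ℂ) + T‖} :=
    fun T hT => ⟨hT.1.le, hT.2.le⟩
  exact closure_minimal hs hc h

theorem isBounded_CR (e κ s1 R : ℝ) : Bornology.IsBounded (CR e κ s1 R) := by
  apply (isBounded_ball (x := (0 : ℂ)) (r := s1 / e)).subset
  intro T hT
  rw [mem_ball_zero_iff]
  exact hT.1

/-- `K + T ≠ 0` on the closed corner -/
theorem closure_CR_ne (hκ : 0 < κ) {T : ℂ} (h : T ∈ closure (CR e κ s1 R)) :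
    (Real.sinh κ : ℂ) + T ≠ 0 := by
  intro h0
  have h1 := (closure_CR h).2
  rw [h0, norm_zero, mul_zero] at h1
  have h2 : (Real.sinh κ : ℂ) - T = 0 := norm_le_zero_iff.1 h1
  have h3 : (Real.sinh κ : ℂ) = 0 := by linear_combination (h0 + h2) / 2
  have h4 : Real.sinh κ = 0 := by exact_mod_cast h3
  have := Real.sinh_pos_iff.2 hκ
  linarith

/-- the frontier of the corner -/
theorem frontier_CR (_he : 0 < e) (hκ : 0 < κ) (_hR : 0 < R) {T : ℂ} (h : T ∈ frontier (CR e κ s1 R)) :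
    ‖T‖ ≤ s1 / e ∧ ‖omT κ T‖ ≤ R ∧ (‖T‖ = s1 / e ∨ ‖omT κ T‖ = R) := by
  have h1 : T ∈ closure (CR e κ s1 R) := frontier_subset_closure h
  have h2 : T ∉ CR e κ s1 R := by
    have := h.2
    rwa [(isOpen_CR e κ s1 R).interior_eq] at this
  obtain ⟨a1, a2⟩ := closure_CR h1
  have h3 : 0 < ‖(Real.sinh κ : ℂ) + T‖ := norm_pos_iff.2 (closure_CR_ne hκ h1)
  have h4 : ‖omT κ T‖ ≤ R := by
    unfold omT
    rw [norm_div, div_le_iff₀ h3]
    exact a2
  refine ⟨a1, h4, ?_⟩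
  by_contra hcon
  push Not at hcon
  obtain ⟨c1, c2⟩ := hcon
  apply h2
  refine ⟨lt_of_le_of_ne a1 c1, ?_⟩
  have h5 : ‖omT κ T‖ < R := lt_of_le_of_ne h4 c2
  unfold omT at h5
  rwa [norm_div, div_lt_iff₀ h3] at h5

end

end Pool.Agent.helper12.RS
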